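import Pool.Agent.H24.RCN.Targets

/-!
# The prime number in the cyclotomic ring
-/

set_option autoImplicit false

open NumberField Pool.Agent.H24.RCN

namespace Pool.Agent.H49.RCN

theorem pf_EZ : T_EZ := by
  intro F _ _ κ z hκ _ hz
  obtain ⟨n, rfl⟩ : ∃ n, κ = n + 1 := ⟨κ - 1, by have := hκ.one_lt; omega⟩
  have h1 := hz.prod_one_sub_pow_eq_order
  refine ⟨∏ k ∈ Finset.range n, (-(∑ j ∈ Finset.range (k + 1), z ^ j)), ?_⟩
  have h2 : ∏ k ∈ Finset.range n, (1 - z ^ (k + 1)) =
      (∏ k ∈ Finset.range n, (-(∑ j ∈ Finset.range (k + 1), z ^ j))) * (z - 1) ^ n := by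
    rw [← Finset.card_range n, ← Finset.prod_const, Finset.card_range, ← Finset.prod_mul_distrib]
    refine Finset.prod_congr rfl fun k _ => ?_
    have h3 := geom_sum_mul z (k + 1)
    linear_combination h3
  rw [Nat.add_sub_cancel, ← h2, h1]
  push_cast
  rfl

end Pool.Agent.H49.RCN
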