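import Pool.Agent.H24.RCN.Targets

/-!
# An integral element of a Kummer extension
-/

set_option autoImplicit false

open NumberField Pool.Agent.H24.RCN

namespace Pool.Agent.H49.RCN

/-- the expansion of the power -/
theorem int_expand {L : Type} [Field L] (κ : ℕ) (hκ : κ.Prime) (hκ2 : κ ≠ 2) (π e c w b y : L)
    (m : ℕ → L) (hm : ∀ i, 0 < i → i < κ → ((κ.choose i : ℕ) : L) = κ * m i)
    (hπ : π ≠ 0) (hκe : (κ : L) = e * π ^ (κ - 1)) (hy : b = 1 + π * y)
    (hb : (b ^ κ - 1) * c = (κ : L) ^ 2 * w) :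
    (c * y) ^ κ + (∑ i ∈ Finset.Ico 1 κ, m i * e * π ^ (i - 1) * c ^ (κ - i) * (c * y) ^ i -
      c ^ (κ - 1) * e ^ 2 * π ^ (κ - 2) * w) = 0 := by
  have h3 : 3 ≤ κ := by
    have := hκ.two_le
    omega
  have h1 : b ^ κ = ∑ i ∈ Finset.range (κ + 1), π ^ i * y ^ i * ((κ.choose i : ℕ) : L) := by
    rw [hy, add_comm, add_pow]
    refine Finset.sum_congr rfl fun i _ => ?_
    rw [one_pow, mul_one, mul_pow]
  rw [Finset.sum_range_succ, Finset.range_eq_Ico, Finset.sum_eq_sum_Ico_succ_bot hκ.pos,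
    Nat.choose_zero_right, Nat.choose_self] at h1
  have h2 : c ^ κ * ∑ i ∈ Finset.Ico (0 + 1) κ, π ^ i * y ^ i * ((κ.choose i : ℕ) : L) =
      π ^ κ * ∑ i ∈ Finset.Ico 1 κ, m i * e * π ^ (i - 1) * c ^ (κ - i) * (c * y) ^ i := by
    rw [Finset.mul_sum, Finset.mul_sum]
    refine Finset.sum_congr rfl fun i hi => ?_
    obtain ⟨hi1, hi2⟩ := Finset.mem_Ico.1 hi
    rw [hm i (by omega) hi2, hκe]
    obtain ⟨j, rfl⟩ : ∃ j, i = j + 1 := ⟨i - 1, by omega⟩
    obtain ⟨l, rfl⟩ : ∃ l, κ = j + 1 + l := ⟨κ - (j + 1), by omega⟩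
    rw [show j + 1 + l - 1 = j + l by omega, show j + 1 - 1 = j by omega,
      show j + 1 + l - (j + 1) = l by omega]
    ring
  have h4 : c ^ κ * (b ^ κ - 1) = π ^ κ * (c ^ (κ - 1) * e ^ 2 * π ^ (κ - 2) * w) := by
    have h5 : c ^ κ * (b ^ κ - 1) = c ^ (κ - 1) * ((b ^ κ - 1) * c) := by
      have h6 : c ^ κ = c ^ (κ - 1) * c := by
        rw [← pow_succ, Nat.sub_add_cancel (by omega)]
      rw [h6]
      ring
    rw [h5, hb, hκe]
    obtain ⟨j, rfl⟩ : ∃ j, κ = j + 2 := ⟨κ - 2, by omega⟩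
    rw [show j + 2 - 1 = j + 1 by omega, show j + 2 - 2 = j by omega]
    ring
  apply (mul_right_injective₀ (pow_ne_zero κ hπ))
  simp only [mul_zero]
  rw [mul_add, mul_sub, ← h2, ← h4, h1]
  push_cast
  ring

theorem pf_INT (h : T_EZ) : T_INT := by
  intro F L _ _ _ _ _ κ z c w b hκ hκ2 hz hb
  obtain ⟨e, he⟩ := h F κ z hκ hκ2 hz
  have hπ : algebraMap F L z - 1 ≠ 0 := by
    intro h0
    have h1 : algebraMap F L z = algebraMap F L 1 := by rw [map_one]; exact sub_eq_zero.1 h0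
    have h2 : (z : F) = ((1 : 𝓞 F) : F) := (algebraMap F L).injective h1
    have h3 : z = 1 := RingOfIntegers.coe_injective h2
    exact hz.ne_one hκ.one_lt h3
  have hκe : (κ : L) = algebraMap F L e * (algebraMap F L z - 1) ^ (κ - 1) := by
    have h1 := congrArg (fun x : 𝓞 F => algebraMap F L (x : F)) he
    simpa using h1
  obtain ⟨m, hm⟩ : ∃ m : ℕ → ℕ, ∀ i, 0 < i → i < κ → κ.choose i = κ * m i := by
    have h1 : ∀ i, ∃ m, 0 < i → i < κ → κ.choose i = κ * m := by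
      intro i
      by_cases hi : 0 < i ∧ i < κ
      · obtain ⟨m, hm⟩ := hκ.dvd_choose_self hi.1.ne' hi.2
        exact ⟨m, fun _ _ => hm⟩
      · exact ⟨0, fun h2 h3 => absurd ⟨h2, h3⟩ hi⟩
    choose m hm using h1
    exact ⟨m, hm⟩
  set y : L := (b - 1) / (algebraMap F L z - 1) with hy
  have hyb : b = 1 + (algebraMap F L z - 1) * y := by
    rw [hy, mul_div_cancel₀ _ hπ]
    ring
  have hexp := int_expand κ hκ hκ2 (algebraMap F L z - 1) (algebraMap F L e) (algebraMap F L c)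
    (algebraMap F L w) b y (fun i => (m i : L))
    (fun i h1 h2 => by rw [hm i h1 h2]; push_cast; rfl) hπ hκe hyb hb
  have hint : IsIntegral (𝓞 F) (algebraMap F L c * y) := by
    let g : Polynomial (𝓞 F) := ∑ i ∈ Finset.Ico 1 κ,
      Polynomial.C ((m i : 𝓞 F) * e * (z - 1) ^ (i - 1) * c ^ (κ - i)) * Polynomial.X ^ i -
      Polynomial.C (c ^ (κ - 1) * e ^ 2 * (z - 1) ^ (κ - 2) * w)
    refine ⟨Polynomial.X ^ κ + g, Polynomial.monic_X_pow_add ?_, ?_⟩
    · refine lt_of_le_of_lt (Polynomial.degree_sub_le _ _) (max_lt ?_ ?_)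
      · refine (Polynomial.degree_sum_le _ _).trans_lt ?_
        rw [Finset.sup_lt_iff (by exact WithBot.bot_lt_coe κ)]
        intro i hi
        refine lt_of_le_of_lt (Polynomial.degree_C_mul_X_pow_le _ _) ?_
        exact_mod_cast (Finset.mem_Ico.1 hi).2
      · refine lt_of_le_of_lt Polynomial.degree_C_le ?_
        exact_mod_cast hκ.pos
    · rw [← hexp]
      simp only [g, Polynomial.eval₂_add, Polynomial.eval₂_sub, Polynomial.eval₂_finset_sum,
        Polynomial.eval₂_mul, Polynomial.eval₂_C, Polynomial.eval₂_pow, Polynomial.eval₂_X]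
      simp only [map_mul, map_pow, map_sub, map_one, map_natCast]
      rfl
  exact isIntegral_trans _ hint

end Pool.Agent.H49.RCN
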