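import Pool.Agent.H24.RCN.Targets

/-!
# The product of `1 - ζ ^ i q`
-/

set_option autoImplicit false

open NumberField Pool.Agent.H24.RCN

namespace Pool.Agent.H49.RCN

open Polynomial in
theorem prod_poly {R : Type} [CommRing R] [IsDomain R] (d : ℕ) (ζ : R) (hd : 0 < d)
    (h : IsPrimitiveRoot ζ d) :
    ∏ i ∈ Finset.range d, (1 - (C ζ : R[X]) ^ i * X) = 1 - X ^ d := by
  classical
  haveI : NeZero d := ⟨hd.ne'⟩
  have h0 : IsPrimitiveRoot (C ζ : R[X]) d := h.map_of_injective Polynomial.C_injective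
  have h1 := h0.pow_sub_pow_eq_prod_sub_mul (1 : R[X]) X hd
  rw [one_pow] at h1
  rw [h1]
  refine Finset.prod_bij (fun i _ => (C ζ : R[X]) ^ i) ?_ ?_ ?_ ?_
  · intro i _
    rw [Polynomial.mem_nthRootsFinset hd, ← pow_mul, mul_comm, pow_mul, h0.pow_eq_one, one_pow]
  · intro i hi j hj hij
    exact h0.pow_inj (Finset.mem_range.1 hi) (Finset.mem_range.1 hj) hij
  · intro x hx
    rw [Polynomial.mem_nthRootsFinset hd] at hx
    obtain ⟨i, hi, hix⟩ := h0.eq_pow_of_pow_eq_one hx
    exact ⟨i, Finset.mem_range.2 hi, hix⟩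
  · intro i _
    rfl

open Polynomial in
theorem pf_PRD : T_PRD := by
  intro R _ _ d q ζ hd h
  obtain ⟨n, rfl⟩ : ∃ n, d = n + 1 := ⟨d - 1, by have := hd.one_lt; omega⟩
  have h1 := prod_poly (n + 1) ζ (by omega) h
  rw [Finset.prod_range_succ', pow_zero, one_mul] at h1
  have h2 := geom_sum_mul (X : R[X]) (n + 1)
  have h3 : (1 - X : R[X]) ≠ 0 := by
    intro h4
    have h5 := congrArg (fun p : R[X] => p.coeff 0) h4
    simp at h5
  have h4 : ∏ i ∈ Finset.range n, (1 - (C ζ : R[X]) ^ (i + 1) * X) =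
      ∑ i ∈ Finset.range (n + 1), (X : R[X]) ^ i := by
    apply mul_right_cancel₀ h3
    linear_combination h1 + h2
  have h5 := congrArg (Polynomial.eval (q : R)) h4
  rw [Polynomial.eval_prod, Polynomial.eval_finset_sum] at h5
  simp only [Polynomial.eval_sub, Polynomial.eval_one, Polynomial.eval_mul, Polynomial.eval_pow,
    Polynomial.eval_C, Polynomial.eval_X] at h5
  rw [Nat.add_sub_cancel]
  exact h5

end Pool.Agent.H49.RCN
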